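import Mathlib
import Pool.Agent.V1156.PA.Real
import Pool.Agent.Results.MP_dc0c68_nt.QuadraticOverAbelian
import Pool.Agent.H892.Parry.Common

/-!
# Parry powers of Perron numbers `β` with `β + 1/β` in an abelian extension of the rationals

Let `β` be a Perron number of degree `d` such that `β + 1/β` lies in a cyclotomic field.  If
`2 ^ (d - 1) β ^ n < 1.21 ^ n` then `β ^ n` is not a Parry number.  So for `β` smaller than Lehmer's
number no `β ^ n` with `n ≥ 25 d` is a Parry number.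

Method: if `β` lies in no cyclotomic field then the Mahler measure of its minimal polynomial is
larger than `1.21` by `Results.MP_dc0c68_nt.QuadraticOverAbelian`.  If `β` lies in a cyclotomic field
then all its conjugates are real, because complex conjugation commutes with the other automorphisms,
and the Mahler measure is at least `(27 / 4) ^ (d / 8)` by the inequality for totally real numbers of
`Pool.Agent.TH53.UG1`.  On the other hand the conjugates of a Parry number have moduli less than `2`.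
-/

set_option autoImplicit false

open Polynomial

namespace Pool.Agent.Results.MP_1f45fc_nt.AbelianTrace

/-- `B` is a Parry number: the orbit of `1` under `x ↦ B x - ⌊B x⌋` is finite. -/
def IsParry (B : ℝ) : Prop :=
  Set.Finite (Set.range (fun k : ℕ => (fun x : ℝ => Int.fract (B * x))^[k] (1 : ℝ)))

/-- `β` is a Perron number. -/
def IsPerron (β : ℝ) : Prop :=
  1 < β ∧ IsIntegral ℤ β ∧ ∀ z : ℂ, aeval z (minpoly ℤ β) = 0 → z ≠ (β : ℂ) → ‖z‖ < β

/-- The real number `t` lies in a cyclotomic field. -/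
def InCyclotomic (t : ℝ) : Prop :=
  ∃ N : ℕ, 0 < N ∧ (t : ℂ) ∈ IntermediateField.adjoin ℚ {z : ℂ | z ^ N = 1}

/-- the Mahler measure is larger than `1.21` -/
theorem mahler_gt {β : ℝ} (h1 : 1 < β) (hint : IsIntegral ℤ β) (h : InCyclotomic (β + β⁻¹)) :
    1.21 < ((minpoly ℤ β).map (Int.castRingHom ℂ)).mahlerMeasure := by
  by_cases hin : ∃ N : ℕ, 0 < N ∧ (β : ℂ) ∈ IntermediateField.adjoin ℚ {z : ℂ | z ^ N = 1}
  · obtain ⟨N, hN, hb⟩ := hin
    have hinj : Function.Injective (algebraMap ℝ ℂ) := (algebraMap ℝ ℂ).injective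
    have hmin : minpoly ℤ (β : ℂ) = minpoly ℤ β := minpoly.algebraMap_eq hinj β
    have hintC : IsIntegral ℤ (β : ℂ) := by
      refine ⟨minpoly ℤ β, minpoly.monic hint, ?_⟩
      rw [← hmin]
      exact minpoly.aeval ℤ (β : ℂ)
    have h0 : (β : ℂ) ≠ 0 := by
      intro h
      have : β = 0 := by exact_mod_cast h
      linarith
    have hroot : ∀ m > 0, (β : ℂ) ^ m ≠ 1 := by
      intro m hm h2
      have h3 : β ^ m = 1 := by exact_mod_cast h2
      have h4 : 1 < β ^ m := one_lt_pow₀ h1 (by omega)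
      linarith
    have h2 := TH53.UG.totally_real hintC h0 hroot (by
      intro z hz
      rw [hmin] at hz
      exact V1156.PA.conj_real hN hint hb hz)
    have hd : 1 ≤ (minpoly ℤ (β : ℂ)).natDegree := minpoly.natDegree_pos hintC
    have h3 : (27 / 4 : ℝ) ≤ (27 / 4 : ℝ) ^ (minpoly ℤ (β : ℂ)).natDegree :=
      le_self_pow₀ (by norm_num) (by omega)
    have h4 : (27 / 4 : ℝ) ≤ W963.GE.MM (β : ℂ) ^ 8 := h3.trans h2
    have h5 : W963.GE.MM (β : ℂ) = ((minpoly ℤ β).map (Int.castRingHom ℂ)).mahlerMeasure := by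
      unfold W963.GE.MM
      rw [hmin]
    rw [h5] at h4
    by_contra hcon
    push Not at hcon
    have h6 : 0 ≤ ((minpoly ℤ β).map (Int.castRingHom ℂ)).mahlerMeasure := mahlerMeasure_nonneg _
    have h7 := pow_le_pow_left₀ h6 hcon 8
    norm_num at h7 h4
    linarith
  · push Not at hin
    refine MP_dc0c68_nt.QuadraticOverAbelian.result (minpoly ℤ β) (minpoly.monic hint).ne_zero
      (β : ℂ) ?_ ?_ hin
    · have h2 : aeval (β : ℂ) (minpoly ℤ β) = ((aeval β (minpoly ℤ β) : ℝ) : ℂ) :=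
        aeval_algebraMap_apply ℂ β (minpoly ℤ β)
      rw [h2, minpoly.aeval]
      simp
    · obtain ⟨N, hN, h2⟩ := h
      refine ⟨N, hN, ?_⟩
      push_cast at h2
      exact h2

/-- **Parry powers of Perron numbers with abelian trace.** -/
theorem result (β : ℝ) (hβ : IsPerron β) (h : InCyclotomic (β + β⁻¹)) :
    (∀ n : ℕ, 2 ^ ((minpoly ℤ β).natDegree - 1) * β ^ n < 1.21 ^ n → ¬ IsParry (β ^ n)) ∧
    (∀ τ : ℝ, 1 < τ → τ ^ 10 + τ ^ 9 - τ ^ 7 - τ ^ 6 - τ ^ 5 - τ ^ 4 - τ ^ 3 + τ + 1 = 0 → β < τ →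
      ∀ n : ℕ, 25 * (minpoly ℤ β).natDegree ≤ n → ¬ IsParry (β ^ n)) := by
  have hM := mahler_gt hβ.1 hβ.2.1 h
  have hfirst : ∀ n : ℕ, 2 ^ ((minpoly ℤ β).natDegree - 1) * β ^ n < 1.21 ^ n →
      ¬ IsParry (β ^ n) := by
    intro n hn hp
    have h0 : 0 < β := by linarith [hβ.1]
    rcases Nat.eq_zero_or_pos n with rfl | hn1
    · have h2 : (1 : ℝ) ≤ 2 ^ ((minpoly ℤ β).natDegree - 1) := one_le_pow₀ (by norm_num)
      rw [pow_zero, pow_zero] at hn
      linarith
    have h3 := H892.Parry.general hβ hn1 hp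
    have h4 : (1.21 : ℝ) ^ n ≤ (H892.Parry.M β) ^ n := pow_le_pow_left₀ (by norm_num) hM.le n
    have h5 : (H892.Parry.M β) ^ n ≤ 2 ^ ((minpoly ℤ β).natDegree - 1) * β ^ n := h3
    linarith
  refine ⟨hfirst, ?_⟩
  intro τ hτ1 hτ hβτ n hn
  apply hfirst
  have hτ2 := H892.Parry.lehmer_lt hτ1 hτ
  have h0 : 0 < β := by linarith [hβ.1]
  have hd : 1 ≤ (minpoly ℤ β).natDegree := minpoly.natDegree_pos hβ.2.1
  have h1 : (1 : ℝ) ≤ 1.21 / 1.17629 := by norm_num
  have h2 : (2 : ℝ) ≤ (1.21 / 1.17629) ^ 25 := by norm_num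
  have h3 : (2 : ℝ) ^ (minpoly ℤ β).natDegree ≤ (1.21 / 1.17629) ^ n := by
    calc (2 : ℝ) ^ (minpoly ℤ β).natDegree ≤
        ((1.21 / 1.17629) ^ 25) ^ (minpoly ℤ β).natDegree := pow_le_pow_left₀ (by norm_num) h2 _
      _ = (1.21 / 1.17629) ^ (25 * (minpoly ℤ β).natDegree) := by rw [← pow_mul]
      _ ≤ (1.21 / 1.17629) ^ n := pow_le_pow_right₀ h1 hn
  have h4 : (2 : ℝ) ^ ((minpoly ℤ β).natDegree - 1) < 2 ^ (minpoly ℤ β).natDegree :=
    pow_lt_pow_right₀ (by norm_num) (by omega)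
  have h5 : β ^ n ≤ 1.17629 ^ n := pow_le_pow_left₀ h0.le (by linarith) n
  have h6 : (1.21 : ℝ) ^ n = (1.21 / 1.17629) ^ n * 1.17629 ^ n := by
    rw [← mul_pow]; norm_num
  rw [h6]
  have h7 : 0 < β ^ n := pow_pos h0 n
  calc 2 ^ ((minpoly ℤ β).natDegree - 1) * β ^ n < 2 ^ (minpoly ℤ β).natDegree * β ^ n :=
        mul_lt_mul_of_pos_right h4 h7
    _ ≤ (1.21 / 1.17629) ^ n * 1.17629 ^ n :=
        mul_le_mul h3 h5 h7.le (by positivity)

end Pool.Agent.Results.MP_1f45fc_nt.AbelianTrace
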