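import Mathlib
import Pool.Agent.V1156.RC.Main
import Pool.Agent.V1156.RC.Perron
import Pool.Agent.H892.Parry.Common

/-!
# Parry powers of Perron numbers having a large resultant with a product of cyclotomic polynomials

Let `β` be a Perron number of degree `d`, `f` its minimal polynomial, let `b = ∏ m ∈ 𝒟, Φ_m` be a
product of distinct cyclotomic polynomials, containing with `Φ_m` all `Φ_e`, `e ∣ m`, of degree
`t ≤ d` (for example `b = X ^ t - 1`), and let `Λ = log |Res(f, b)| ≥ 200 √(d t)`. Put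
`μ = min (1 + log d, (Λ / (200 √(d t))) ^ 4 / (1 + log d) ^ 3)`.
If `β ^ n` is a Parry number, `n ≥ 1`, then `n (μ - log β) < d`; so only finitely many powers of `β`
are Parry numbers if `β < exp μ`. If `β` is smaller than Lehmer's number and
`Λ ≥ 200 √(d t) (1 + log d) ^ (3/4)`, then no power `β ^ n` with `n ≥ d` is a Parry number.

Method: no quotient of two distinct conjugates of a Perron number is a root of unity, so that
`log M(f) ≥ μ`, and the conjugates of a Parry number have moduli at most `2`.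
-/

set_option autoImplicit false

open Polynomial

namespace Pool.Agent.Results.MP_1f45fc_nt.LargeResultants

/-- `B` is a Parry number: the orbit of `1` under `x ↦ B x - ⌊B x⌋` is finite. -/
def IsParry (B : ℝ) : Prop :=
  Set.Finite (Set.range (fun k : ℕ => (fun x : ℝ => Int.fract (B * x))^[k] (1 : ℝ)))

/-- `β` is a Perron number. -/
def IsPerron (β : ℝ) : Prop :=
  1 < β ∧ IsIntegral ℤ β ∧ ∀ z : ℂ, aeval z (minpoly ℤ β) = 0 → z ≠ (β : ℂ) → ‖z‖ < β

/-- The absolute value of the resultant of the monic polynomial `f` and of `b`: the product of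
`|b(y)|` over the complex zeros `y` of `f` (with multiplicity). -/
noncomputable def resAbs (f b : ℤ[X]) : ℝ :=
  ((f.map (Int.castRingHom ℂ)).roots.map fun y => ‖aeval y b‖).prod

lemma one_le_prod_max (s : Multiset ℂ) : 1 ≤ (s.map fun z => max 1 ‖z‖).prod := by
  induction s using Multiset.induction_on with
  | empty => simp
  | cons a s ih =>
    rw [Multiset.map_cons, Multiset.prod_cons]
    exact one_le_mul_of_one_le_of_one_le (le_max_left _ _) ih

/-- **Parry powers of Perron numbers with a large resultant.** -/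
theorem result (β : ℝ) (hβ : IsPerron β) (𝒟 : Finset ℕ) (hne : 𝒟.Nonempty)
    (hpos : ∀ m ∈ 𝒟, 0 < m) (hcl : ∀ m ∈ 𝒟, ∀ e, e ∣ m → e ∈ 𝒟) (d t : ℕ)
    (hd : d = (minpoly ℤ β).natDegree) (ht : t = ∑ m ∈ 𝒟, Nat.totient m) (htd : t ≤ d) (Λ : ℝ)
    (hΛ : Λ = Real.log (resAbs (minpoly ℤ β) (∏ m ∈ 𝒟, cyclotomic m ℤ)))
    (h : 200 * Real.sqrt (d * t) ≤ Λ) :
    (∀ n : ℕ, 1 ≤ n → IsParry (β ^ n) →
      n * (min (1 + Real.log d) ((Λ / (200 * Real.sqrt (d * t))) ^ 4 / (1 + Real.log d) ^ 3) -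
        Real.log β) < d) ∧
    (Real.log β < min (1 + Real.log d)
        ((Λ / (200 * Real.sqrt (d * t))) ^ 4 / (1 + Real.log d) ^ 3) →
      {n : ℕ | IsParry (β ^ n)}.Finite) ∧
    (∀ τ : ℝ, 1 < τ → τ ^ 10 + τ ^ 9 - τ ^ 7 - τ ^ 6 - τ ^ 5 - τ ^ 4 - τ ^ 3 + τ + 1 = 0 → β < τ →
      200 * (Real.sqrt (d * t) * (1 + Real.log d) ^ (3 / 4 : ℝ)) ≤ Λ →
      ∀ n : ℕ, d ≤ n → ¬ IsParry (β ^ n)) := by
  obtain ⟨h1, hint, hper⟩ := hβ
  have hβ0 : 0 < β := by linarith
  have hd1 : 1 ≤ d := by rw [hd]; exact minpoly.natDegree_pos hint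
  have hd1' : (1:ℝ) ≤ d := by exact_mod_cast hd1
  have hln : 0 ≤ Real.log d := Real.log_nonneg hd1'
  set f := minpoly ℤ β with hf
  have hfm : f.Monic := minpoly.monic hint
  have hirr : Irreducible f := minpoly.irreducible hint
  have hMβ : β ≤ (f.map (Int.castRingHom ℂ)).mahlerMeasure := by
    have h2 : (1:ℝ) * (max 1 ‖(β:ℂ)‖) ≤ (f.map (Int.castRingHom ℂ)).mahlerMeasure := by
      rw [mahlerMeasure_eq_leadingCoeff_mul_prod_roots, (hfm.map _).leadingCoeff, norm_one, one_mul,
        one_mul]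
      have hr : (β : ℂ) ∈ (f.map (Int.castRingHom ℂ)).roots := by
        rw [mem_roots ((hfm.map _).ne_zero), IsRoot.def, eval_map]
        have h3 : aeval (β : ℂ) f = ((aeval β f : ℝ) : ℂ) := aeval_algebraMap_apply ℂ β f
        have h4 : aeval (β : ℂ) f = 0 := by
          rw [h3, hf, minpoly.aeval]
          simp
        exact h4
      obtain ⟨s, hs⟩ := Multiset.exists_cons_of_mem hr
      rw [hs, Multiset.map_cons, Multiset.prod_cons]
      refine le_mul_of_one_le_right (le_trans zero_le_one (le_max_left _ _)) ?_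
      exact one_le_prod_max _
    rw [one_mul, Complex.norm_real, Real.norm_eq_abs, abs_of_pos hβ0] at h2
    exact (le_max_right _ _).trans h2
  have hM : 1 < (f.map (Int.castRingHom ℂ)).mahlerMeasure := lt_of_lt_of_le h1 hMβ
  have hnd := Pool.Agent.V1156.RC.perron_nondeg hint hper
  set μ := min (1 + Real.log d) ((Λ / (200 * Real.sqrt (d * t))) ^ 4 / (1 + Real.log d) ^ 3)
    with hμ
  have hmain : μ ≤ Real.log (f.map (Int.castRingHom ℂ)).mahlerMeasure := by
    have h3 := (Pool.Agent.V1156.RC.main_cyc f hirr hfm 𝒟 hne hpos d t hd ht htd).2 hM hnd hcl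
    rw [hμ, hΛ]
    rw [hΛ] at h
    exact h3 h
  have hfirst : ∀ n : ℕ, 1 ≤ n → IsParry (β ^ n) → n * (μ - Real.log β) < d := by
    intro n hn hp
    have h4 := Pool.Agent.H892.Parry.log_form (β := β) ⟨h1, hint, hper⟩ hn hp
    have h5 : (n:ℝ) * (μ - Real.log β) ≤ n * (Real.log (Pool.Agent.H892.Parry.M β) - Real.log β) :=
      mul_le_mul_of_nonneg_left (sub_le_sub_right hmain _) (by positivity)
    have h6 : (Pool.Agent.H892.Parry.deg β : ℝ) = d := by
      rw [hd]; rfl
    linarith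
  refine ⟨hfirst, fun hlt => ?_, ?_⟩
  · obtain ⟨N, hN⟩ := exists_nat_gt ((d:ℝ) / (μ - Real.log β))
    refine (Set.finite_Iic (N + 1)).subset fun n hn => ?_
    rw [Set.mem_Iic]
    by_contra hcon
    push Not at hcon
    have h4 := hfirst n (by omega) hn
    have h5 : 0 < μ - Real.log β := by linarith
    rw [div_lt_iff₀ h5] at hN
    have h6 : (N:ℝ) ≤ n := by exact_mod_cast (by omega : N ≤ n)
    have h7 := mul_le_mul_of_nonneg_right h6 h5.le
    linarith
  · intro τ hτ1 hτ hβτ hΛ2 n hn hp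
    have hτ2 := Pool.Agent.H892.Parry.lehmer_lt hτ1 hτ
    have hn1 : 1 ≤ n := hd1.trans hn
    have h4 := Pool.Agent.H892.Parry.general (β := β) ⟨h1, hint, hper⟩ hn1 hp
    have ht1 : 1 ≤ t := by
      obtain ⟨m, hm⟩ := hne
      rw [ht]
      exact le_trans (Nat.totient_pos.mpr (hpos m hm))
        (Finset.single_le_sum (f := fun m => Nat.totient m) (fun _ _ => Nat.zero_le _) hm)
    have ht1' : (1:ℝ) ≤ t := by exact_mod_cast ht1
    have hμ1 : 1 ≤ μ := by
      rw [hμ]
      refine le_min (by linarith) ?_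
      set l : ℝ := 1 + Real.log d with hl
      have hl1 : 1 ≤ l := by linarith
      set s := Real.sqrt (d * t) with hs
      have hs0 : 0 < s := Real.sqrt_pos.mpr (by positivity)
      set u : ℝ := l ^ (3 / 4 : ℝ) with hu
      have hu1 : 1 ≤ u := Real.one_le_rpow hl1 (by norm_num)
      have hu4 : u ^ 4 = l ^ 3 := by
        rw [hu, ← Real.rpow_natCast, ← Real.rpow_mul (by linarith), ← Real.rpow_natCast]
        norm_num
      rw [le_div_iff₀ (by positivity), one_mul, ← hu4]
      refine pow_le_pow_left₀ (by positivity) ?_ 4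
      rw [le_div_iff₀ (by positivity)]
      linarith
    have h5 : Real.exp 1 ≤ (f.map (Int.castRingHom ℂ)).mahlerMeasure :=
      (Real.le_log_iff_exp_le (by linarith)).mp (hμ1.trans hmain)
    have h6 : (2.7:ℝ) ≤ (f.map (Int.castRingHom ℂ)).mahlerMeasure := by
      have := Real.exp_one_gt_d9
      linarith
    have h7 : (2.7:ℝ) ^ n ≤ 2 ^ (d - 1) * 1.17629 ^ n := by
      have h8 : (2.7:ℝ) ^ n ≤ Pool.Agent.H892.Parry.M β ^ n := pow_le_pow_left₀ (by norm_num) h6 n
      have h9 : β ^ n ≤ 1.17629 ^ n := pow_le_pow_left₀ hβ0.le (by linarith) n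
      have h10 : Pool.Agent.H892.Parry.deg β = d := by rw [hd]; rfl
      rw [h10] at h4
      exact h8.trans (h4.trans (mul_le_mul_of_nonneg_left h9 (by positivity)))
    have h8 : (2:ℝ) ^ n * 1.17629 ^ n < 2.7 ^ n := by
      rw [← mul_pow]
      exact pow_lt_pow_left₀ (by norm_num) (by norm_num) (by omega)
    have h9 : (2:ℝ) ^ (d - 1) ≤ 2 ^ n := pow_le_pow_right₀ (by norm_num) (by omega)
    have h10 : (2:ℝ) ^ (d - 1) * 1.17629 ^ n ≤ 2 ^ n * 1.17629 ^ n :=
      mul_le_mul_of_nonneg_right h9 (by positivity)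
    linarith

end Pool.Agent.Results.MP_1f45fc_nt.LargeResultants
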