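import Mathlib
import Pool.Agent.V1156.RC.Parry
import Pool.Agent.Results.MP_7ab245_nt.SmallMeanSquares

/-!
# Parry powers of Perron numbers having a combination of conjugates with small quadratic mean

Let `β` be a Perron number of degree `d`. Let `S` be a set of `k` nonzero complex numbers, each
`x ∈ S` a product of at most `D(x)` conjugates of `β` and inverses of conjugates (`D(x) ≥ 1`), no
quotient of two distinct elements of `S` being a root of unity, and let `γ = ∑ a_x x` with rational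
`a_x`, not all zero. Suppose that the mean of `|z| ^ 2` over the conjugates `z` of `γ` is at most
`(1 - ε) ∑ a_x ^ 2` (for example `γ = 0`, a linear relation). Let `W = k (∑ D(x)) (log 2k)⁴` and
`μ = min (log 2, c d / W)`, where `c > 0` depends on `ε` only. If `β ^ n` is a Parry number, `n ≥ 1`,
then `n (μ - log β) < d`; so only finitely many powers of `β` are Parry numbers if `β < exp μ`. If
`β` is smaller than Lehmer's number and `W ≤ c d`, then no `β ^ n` with `n ≥ 3 d / 2` is a Parry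
number.
-/

set_option autoImplicit false

open Polynomial

namespace Pool.Agent.Results.MP_1f45fc_nt.SmallMeanSquares

/-- `B` is a Parry number: the orbit of `1` under `x ↦ B x - ⌊B x⌋` is finite. -/
def IsParry (B : ℝ) : Prop :=
  Set.Finite (Set.range (fun k : ℕ => (fun x : ℝ => Int.fract (B * x))^[k] (1 : ℝ)))

/-- `β` is a Perron number. -/
def IsPerron (β : ℝ) : Prop :=
  1 < β ∧ IsIntegral ℤ β ∧ ∀ z : ℂ, aeval z (minpoly ℤ β) = 0 → z ≠ (β : ℂ) → ‖z‖ < β

/-- Every `x` in `S` is a nonzero product of at most `D x` conjugates, and inverses of conjugates,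
of `β`, where `D x ≥ 1`. -/
def Monomials (β : ℝ) (S : Finset ℂ) (D : ℂ → ℕ) : Prop :=
  ∀ x ∈ S, x ≠ 0 ∧ 1 ≤ D x ∧ ∃ l : List ℂ, l.length ≤ D x ∧
    (∀ z ∈ l, aeval z (minpoly ℤ β) = 0 ∨ aeval z⁻¹ (minpoly ℤ β) = 0) ∧ x = l.prod

/-- No quotient of two distinct elements of `S` is a root of unity. -/
def QuotientsNotTorsion (S : Finset ℂ) : Prop :=
  ∀ x ∈ S, ∀ y ∈ S, x ≠ y → ∀ m : ℕ, 0 < m → x ^ m ≠ y ^ m

/-- **Parry powers of Perron numbers.** -/
theorem result (ε : ℝ) (hε : 0 < ε) : ∃ c : ℝ, 0 < c ∧ ∀ β : ℝ, IsPerron β →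
    ∀ (S : Finset ℂ) (D : ℂ → ℕ), Monomials β S D → QuotientsNotTorsion S →
    ∀ a : ℂ → ℚ, (∃ x ∈ S, a x ≠ 0) → ∀ γ : ℂ, γ = ∑ x ∈ S, (a x : ℂ) * x →
    (((minpoly ℚ γ).aroots ℂ).map (fun z => ‖z‖ ^ 2)).sum ≤
      (1 - ε) * ((minpoly ℚ γ).natDegree * ∑ x ∈ S, ((a x : ℚ) : ℝ) ^ 2) →
    ∀ (d : ℕ) (W : ℝ), d = (minpoly ℤ β).natDegree →
      W = S.card * (∑ x ∈ S, (D x : ℝ)) * Real.log (2 * S.card) ^ 4 →
      (∀ n : ℕ, 1 ≤ n → IsParry (β ^ n) →
        n * (min (Real.log 2) (c * d / W) - Real.log β) < d) ∧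
      (Real.log β < min (Real.log 2) (c * d / W) → {n : ℕ | IsParry (β ^ n)}.Finite) ∧
      (W ≤ c * d → ∀ τ : ℝ, 1 < τ →
        τ ^ 10 + τ ^ 9 - τ ^ 7 - τ ^ 6 - τ ^ 5 - τ ^ 4 - τ ^ 3 + τ + 1 = 0 → β < τ →
        ∀ n : ℕ, 3 * d ≤ 2 * n → ¬ IsParry (β ^ n)) := by
  obtain ⟨c, hc, H⟩ := Pool.Agent.Results.MP_7ab245_nt.SmallMeanSquares.result ε hε
  refine ⟨c, hc, ?_⟩
  intro β hβ S D hS hq a ha γ hγ hcond d W hd hW
  have hint : IsIntegral ℤ β := hβ.2.1
  have h1 := H (minpoly ℤ β) (minpoly.irreducible hint) S D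
    (fun x hx => ⟨(hS x hx).1, (hS x hx).2.2⟩) hq a ha γ hγ hcond
  rw [← hd] at h1
  have hW' : (S.card * (∑ x ∈ S, (D x : ℝ)) * (Real.log (2 * S.card)) ^ 4 : ℝ) = W := hW.symm
  rw [hW'] at h1
  have hM1 : 0 < Pool.Agent.H892.Parry.M β :=
    lt_of_lt_of_le one_pos (Pool.Agent.H892.Parry.one_le_M hint)
  change min 2 (Real.exp (c * d / W)) ≤ Pool.Agent.H892.Parry.M β at h1
  have hμ : min (Real.log 2) (c * d / W) ≤ Real.log (Pool.Agent.H892.Parry.M β) := by
    rcases le_total 2 (Real.exp (c * d / W)) with h | h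
    · rw [min_eq_left h] at h1
      exact (min_le_left _ _).trans (Real.log_le_log (by norm_num) h1)
    · rw [min_eq_right h] at h1
      exact (min_le_right _ _).trans ((Real.le_log_iff_exp_le hM1).mpr h1)
  obtain ⟨h2, h3⟩ := Pool.Agent.V1156.RC.parry_of (β := β) hβ hμ
  refine ⟨?_, h3, ?_⟩
  · intro n hn hp
    have := h2 n hn hp
    rw [hd]
    rw [hd] at this
    exact this
  · intro hWd τ hτ1 hτ hβτ n hn
    refine Pool.Agent.V1156.RC.parry_two (β := β) hβ ?_ hτ1 hτ hβτ n (by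
      have : Pool.Agent.H892.Parry.deg β = d := by rw [hd]; rfl
      rw [this]
      exact hn)
    obtain ⟨x, hx, -⟩ := ha
    have hcard : (1 : ℝ) ≤ S.card := by
      have : 1 ≤ S.card := Finset.card_pos.2 ⟨x, hx⟩
      exact_mod_cast this
    have hsum : (1 : ℝ) ≤ ∑ x ∈ S, (D x : ℝ) := by
      calc (1 : ℝ) ≤ (D x : ℝ) := by exact_mod_cast (hS x hx).2.1
        _ ≤ ∑ x ∈ S, (D x : ℝ) :=
          Finset.single_le_sum (f := fun x => (D x : ℝ)) (fun _ _ => Nat.cast_nonneg _) hx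
    have hlog : 0 < Real.log (2 * S.card) := Real.log_pos (by linarith)
    have hW0 : 0 < W := by rw [hW]; positivity
    have h4 : 1 ≤ c * d / W := by
      rw [le_div_iff₀ hW0, one_mul]
      exact hWd
    have h5 : (2 : ℝ) ≤ Real.exp (c * d / W) := by
      have := Real.add_one_le_exp (c * d / W)
      linarith
    rw [min_eq_left h5] at h1
    exact h1

end Pool.Agent.Results.MP_1f45fc_nt.SmallMeanSquares
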